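import Pool.Agent.Helper45.RT.Stmts2

/-!
Project RTwo: counting rows DEL, MIN.
-/

set_option autoImplicit false

namespace RTwo

open Finset

theorem card_filter_succ (k : ℕ) (P : ℕ → Prop) [DecidablePred P] :
    ((range (k + 1)).filter P).card = ((range k).filter P).card + (if P k then 1 else 0) := by
  rw [range_add_one, filter_insert]
  split_ifs with h
  · rw [card_insert_of_notMem (by simp)]
  · rfl

theorem nA_succ (k : ℕ) (c : Col) (v : ℕ) :
    nA (k + 1) c v = nA k c v + (if c v k = 1 then 1 else 0) := card_filter_succ k _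

theorem nB_succ (k : ℕ) (c : Col) (v : ℕ) :
    nB (k + 1) c v = nB k c v + (if c v k = 2 then 1 else 0) := card_filter_succ k _

theorem SymC.pred {k : ℕ} {c : Col} (h : SymC (k + 1) c) : SymC k c :=
  fun i j hi hj => h i j (hi.trans (Nat.lt_succ_self k)) (hj.trans (Nat.lt_succ_self k))

theorem totA_succ {k : ℕ} {c : Col} (h : SymC (k + 1) c) :
    totA (k + 1) c = totA k c + 2 * nA (k + 1) c k := by
  have h1 : nA (k + 1) c k = nA k c k := by
    rw [nA_succ, (h k k (by omega) (by omega)).2.1]
    simp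
  have h2 : ∑ v ∈ range k, (if c v k = 1 then 1 else 0) = nA k c k := by
    unfold nA
    rw [card_filter]
    refine sum_congr rfl fun v hv => ?_
    rw [mem_range] at hv
    rw [(h v k (by omega) (by omega)).1]
  unfold totA
  rw [sum_range_succ, h1]
  simp only [nA_succ]
  rw [sum_add_distrib, h2]
  ring

theorem totB_succ {k : ℕ} {c : Col} (h : SymC (k + 1) c) :
    totB (k + 1) c = totB k c + 2 * nB (k + 1) c k := by
  have h1 : nB (k + 1) c k = nB k c k := by
    rw [nB_succ, (h k k (by omega) (by omega)).2.1]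
    simp
  have h2 : ∑ v ∈ range k, (if c v k = 2 then 1 else 0) = nB k c k := by
    unfold nB
    rw [card_filter]
    refine sum_congr rfl fun v hv => ?_
    rw [mem_range] at hv
    rw [(h v k (by omega) (by omega)).1]
  unfold totB
  rw [sum_range_succ, h1]
  simp only [nB_succ]
  rw [sum_add_distrib, h2]
  ring

theorem st_DEL : ST_DEL := by
  intro k c h
  have hA := totA_succ h
  have hB := totB_succ h
  refine ⟨h.pred, ?_, by omega, by omega, ?_, ?_⟩
  · unfold tot dgr
    omega
  · intro v hv
    unfold dgr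
    rw [nA_succ, nB_succ]
    split_ifs with h1 h2 h2 <;> omega
  · intro v hv
    unfold dgr
    rw [nA_succ, nB_succ]
    omega

theorem tot_eq (n : ℕ) (c : Col) : tot n c = ∑ v ∈ range n, dgr n c v := by
  unfold tot totA totB dgr
  rw [sum_add_distrib]

theorem st_MIN (hD : ST_DCOL) : ST_MIN := by
  intro k c h
  obtain ⟨w, hw, hmin⟩ := exists_min_image (range (k + 1)) (fun v => dgr (k + 1) c v)
    ⟨0, by simp⟩
  rw [mem_range] at hw
  have hd := (hD (k + 1) ((w + 1) % (k + 1)) 0 c (Nat.succ_pos k) h).2.2.2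
  have hk : dsg (k + 1) ((w + 1) % (k + 1)) 0 k = w := by
    unfold dsg
    rw [if_pos rfl, Nat.add_mod_mod]
    have : k + (w + 1) = w + (k + 1) := by ring
    rw [this, Nat.add_mod_right, Nat.mod_eq_of_lt hw]
  have hlt : ∀ v, dsg (k + 1) ((w + 1) % (k + 1)) 0 v < k + 1 := by
    intro v
    unfold dsg
    rw [if_pos rfl]
    exact Nat.mod_lt _ (Nat.succ_pos k)
  refine ⟨(w + 1) % (k + 1), Nat.mod_lt _ (Nat.succ_pos k), ?_, ?_⟩
  · intro v hv
    rw [hd k (by omega), hd v (by omega), hk]
    exact hmin _ (mem_range.2 (hlt v))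
  · rw [hd k (by omega), hk, tot_eq]
    calc (k + 1) * dgr (k + 1) c w = ∑ _v ∈ range (k + 1), dgr (k + 1) c w := by
          rw [sum_const, card_range, smul_eq_mul]
      _ ≤ ∑ v ∈ range (k + 1), dgr (k + 1) c v := sum_le_sum fun v hv => hmin v hv

end RTwo
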