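import Pool.Agent.Helper45.RT.Stmts2

/-!
Project RTwo: geometry of triangles (rows ANG, ADD, PHI, ISO, APEX, HINGE).
-/

set_option autoImplicit false

namespace RTwo

open EuclideanGeometry

theorem cr_cyc (u v w : ℂ) : cr v w u = cr u v w := by
  unfold cr; ring

theorem cr_swap (u v w : ℂ) : cr u w v = - cr u v w := by
  unfold cr; ring

theorem not_col {x y z : ℂ} (h : cr x y z ≠ 0) : ¬ Collinear ℝ ({x, y, z} : Set ℂ) := by
  intro hc
  rw [collinear_iff_of_mem (p₀ := x) (by simp)] at hc
  obtain ⟨v, hv⟩ := hc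
  obtain ⟨r, hr⟩ := hv y (by simp)
  obtain ⟨s, hs⟩ := hv z (by simp)
  apply h
  rw [hr, hs]
  unfold cr
  simp only [vadd_eq_add, Complex.add_re, Complex.add_im, Complex.real_smul, Complex.mul_re,
    Complex.mul_im, Complex.ofReal_re, Complex.ofReal_im, zero_mul, sub_zero, add_zero]
  ring

theorem an_mul (x y z : ℂ) : an x y z * Real.pi = ∠ y x z := by
  unfold an
  rw [div_mul_cancel₀ _ Real.pi_ne_zero]

theorem an_comm (x y z : ℂ) : an x y z = an x z y := by
  unfold an
  rw [EuclideanGeometry.angle_comm]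

theorem an_pos {x y z : ℂ} (h : cr x y z ≠ 0) : 0 < an x y z := by
  have h1 : cr y x z ≠ 0 := by
    rw [← cr_cyc, cr_swap] at h
    rw [← cr_cyc] at h
    intro h0
    apply h
    have : cr y x z = - cr x y z := by unfold cr; ring
    unfold cr at h0 ⊢
    linarith
  exact div_pos (angle_pos_of_not_collinear (not_col h1)) Real.pi_pos

theorem an_lt_one {x y z : ℂ} (h : cr x y z ≠ 0) : an x y z < 1 := by
  have h1 : cr y x z ≠ 0 := by
    intro h0
    apply h
    unfold cr at h0 ⊢
    linarith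
  exact (div_lt_one Real.pi_pos).2 (angle_lt_pi_of_not_collinear (not_col h1))

theorem an_sum {x y z : ℂ} (h : x ≠ y) : an x y z + an y z x + an z x y = 1 := by
  have h1 := angle_add_angle_add_angle_eq_pi (p₁ := y) (p₂ := x) z h
  unfold an
  rw [← add_div, ← add_div, div_eq_one_iff_eq Real.pi_ne_zero]
  rw [← h1, EuclideanGeometry.angle_comm z y x, EuclideanGeometry.angle_comm x z y]
  ring

theorem st_ANG : ST_ANG := by
  intro x y z h
  have hxy : x ≠ y := by
    rintro rfl
    apply h; unfold cr; ring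
  have hxz : x ≠ z := by
    rintro rfl
    apply h; unfold cr; ring
  have hyz : y ≠ z := by
    rintro rfl
    apply h; unfold cr; ring
  exact ⟨an_pos h, an_lt_one h, an_comm _ _ _, an_sum hxy, hxy, hxz, hyz⟩

theorem st_ADD : ST_ADD := by
  intro x y z w h1 h2 h3 _
  set α : ℝ := cr x z w / cr x y w with hα
  set β : ℝ := cr x y z / cr x y w with hβ
  have hα0 : 0 < α := div_pos h2 h3
  have hβ0 : 0 < β := div_pos h1 h3
  have h0 : cr x y w ≠ 0 := h3.ne'
  have hz : z - x = (α : ℂ) * (y - x) + (β : ℂ) * (w - x) := by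
    apply Complex.ext
    · simp only [Complex.sub_re, Complex.add_re, Complex.mul_re, Complex.ofReal_re,
        Complex.ofReal_im, zero_mul, sub_zero]
      rw [hα, hβ]
      field_simp
      unfold cr
      ring
    · simp only [Complex.sub_im, Complex.add_im, Complex.mul_im, Complex.ofReal_re,
        Complex.ofReal_im, zero_mul, add_zero]
      rw [hα, hβ]
      field_simp
      unfold cr
      ring
  have hs : 0 < α + β := add_pos hα0 hβ0
  have hyw : y ≠ w := by
    rintro rfl
    apply h0; unfold cr; ring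
  have hxz : z ≠ x := by
    rintro rfl
    apply h1.ne'; unfold cr; ring
  set X : ℂ := AffineMap.lineMap y w (β / (α + β)) with hX
  have hXx : X - x = ((α + β)⁻¹ : ℝ) • (z - x) := by
    rw [hz, hX, AffineMap.lineMap_apply]
    simp only [vsub_eq_sub, vadd_eq_add, Complex.real_smul]
    push_cast
    have : ((α : ℂ) + β) ≠ 0 := by exact_mod_cast hs.ne'
    field_simp
    ring
  have hsb : Sbtw ℝ y X w := by
    rw [hX, sbtw_lineMap_iff]
    refine ⟨hyw, div_pos hβ0 hs, ?_⟩
    rw [div_lt_one hs]; linarith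
  have hray : SameRay ℝ (X -ᵥ x) (z -ᵥ x) := by
    rw [vsub_eq_sub, vsub_eq_sub, hXx]
    exact SameRay.sameRay_pos_smul_left _ (inv_pos.2 hs)
  have h5 := angle_add_angle_eq_of_sbtw_of_sameRay hsb hray hxz
  unfold an
  rw [← add_div, h5]

theorem st_PHI : ST_PHI := by
  intro n p hp
  refine ⟨fun i j => if i = 0 then (if j = 1 then 0 else an (p 0) (p 1) (p j))
    else 1 + (if i = 1 then 0 else an (p 0) (p 1) (p i)) - an (p i) (p 0) (p j), ?_⟩
  have hne : ∀ i j k, i < j → j < k → k < n → p i ≠ p j ∧ p i ≠ p k ∧ p j ≠ p k := by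
    intro i j k h1 h2 h3
    have h := st_ANG _ _ _ (hp i j k h1 h2 h3).ne'
    exact ⟨h.2.2.2.2.1, h.2.2.2.2.2.1, h.2.2.2.2.2.2⟩
  set u : ℕ → ℝ := fun j => if j = 1 then 0 else an (p 0) (p 1) (p j) with hu
  -- the angles at `p 0`
  have A0 : ∀ j k, 0 < j → j < k → k < n → an (p 0) (p j) (p k) = u k - u j := by
    intro j k h1 h2 h3
    rcases Nat.eq_or_lt_of_le (Nat.succ_le_of_lt h1) with h4 | h4
    · have h5 : j = 1 := h4.symm
      subst h5
      have h6 : k ≠ 1 := by omega
      simp [hu, h6]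
    · have h4' : 1 < j := h4
      have h5 : j ≠ 1 := by omega
      have h6 : k ≠ 1 := by omega
      have h7 := st_ADD (p 0) (p 1) (p j) (p k) (hp _ _ _ (by omega) h4' (by omega))
        (hp _ _ _ h1 h2 h3) (hp _ _ _ (by omega) (by omega) h3) (hp _ _ _ h4' h2 h3)
      simp only [hu, h5, h6, if_false]
      linarith
  intro i j k hij hjk hk
  have hj0 : j ≠ 0 := by omega
  by_cases hi : i = 0
  · subst hi
    simp only [if_true, hj0, if_false]
    change _ = u k - u j ∧ _ = 1 + u j - (1 + u j - _) ∧ _ = 1 + u j - an (p j) (p 0) (p k) - u k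
    have h1 := A0 j k hij hjk hk
    have h2 := an_sum (z := p k) (hne 0 j k hij hjk hk).1
    rw [an_comm (p j) (p k) (p 0)] at h2
    refine ⟨h1, by ring, by linarith⟩
  · have hi0 : 0 < i := Nat.pos_of_ne_zero hi
    simp only [hi, hj0, if_false]
    change _ = 1 + u i - an (p i) (p 0) (p k) - (1 + u i - an (p i) (p 0) (p j)) ∧
      _ = 1 + (1 + u i - an (p i) (p 0) (p j)) - (1 + u j - an (p j) (p 0) (p k)) ∧
      _ = 1 + u j - an (p j) (p 0) (p k) - (1 + u i - an (p i) (p 0) (p k))
    have c1 := hp 0 i j hi0 hij (hjk.trans hk)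
    have c2 := hp 0 i k hi0 (hij.trans hjk) hk
    have c3 := hp 0 j k (hi0.trans hij) hjk hk
    have c4 := hp i j k hij hjk hk
    -- at `p i`
    have a1 := st_ADD (p i) (p j) (p k) (p 0) c4 (by rw [cr_cyc]; exact c2)
      (by rw [cr_cyc]; exact c1) (by rw [cr_cyc]; exact c3)
    rw [an_comm (p i) (p j) (p 0), an_comm (p i) (p k) (p 0)] at a1
    -- at `p j`
    have a2 := st_ADD (p j) (p k) (p 0) (p i) (by rw [cr_cyc]; exact c3)
      (by rw [← cr_cyc]; exact c1) (by rw [cr_cyc]; exact c4) (by rw [← cr_cyc]; exact c2)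
    rw [an_comm (p j) (p k) (p i), an_comm (p j) (p k) (p 0)] at a2
    have a3 := A0 i j hi0 hij (hjk.trans hk)
    have a4 := an_sum (z := p j) (hne 0 i j hi0 hij (hjk.trans hk)).1
    rw [an_comm (p i) (p j) (p 0)] at a4
    have a5 := an_sum (z := p k) (hne i j k hij hjk hk).1
    rw [an_comm (p j) (p k) (p i)] at a5
    refine ⟨by linarith, by linarith, by linarith⟩

theorem st_ISO : ST_ISO := by
  intro x y z h
  constructor
  · intro hd
    have h1 : ∠ z x y = ∠ z y x :=
      angle_eq_angle_of_dist_eq (by rw [dist_comm z x, dist_comm z y]; exact hd.symm)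
    unfold an
    rw [EuclideanGeometry.angle_comm y x z, EuclideanGeometry.angle_comm x y z, h1]
  · intro hd
    have hc : ¬ Collinear ℝ ({z, y, x} : Set ℂ) := by
      apply not_col
      intro h0
      apply h
      unfold cr at h0 ⊢
      linarith
    have h1 : ∠ z x y < ∠ z y x :=
      (angle_lt_iff_dist_lt hc).2 (by rw [dist_comm z x, dist_comm z y]; exact hd)
    unfold an
    rw [EuclideanGeometry.angle_comm y x z, EuclideanGeometry.angle_comm x y z]
    exact div_lt_div_of_pos_right h1 Real.pi_pos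

/-- law of cosines -/
theorem lc (x y z : ℂ) : dist y z ^ 2 = dist x y ^ 2 + dist x z ^ 2 -
    2 * dist x y * dist x z * Real.cos (∠ y x z) := by
  have h := law_cos y x z
  rw [dist_comm y x, dist_comm z x] at h
  nlinarith [h]

theorem half_angle {x y z : ℂ} {s t : ℝ} (h : cr x y z ≠ 0) (h1 : dist x y = s)
    (h2 : dist x z = s) (h3 : dist y z = t) :
    0 < s ∧ t = 2 * s * Real.sin (∠ y x z / 2) ∧ 0 < ∠ y x z ∧ ∠ y x z < Real.pi := by
  have hA := st_ANG _ _ _ h
  have hs : 0 < s := by rw [← h1]; exact dist_pos.2 hA.2.2.2.2.1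
  have ht : 0 ≤ t := by rw [← h3]; exact dist_nonneg
  have hp : 0 < ∠ y x z := by
    rw [← an_mul]; exact mul_pos hA.1 Real.pi_pos
  have hl : ∠ y x z < Real.pi := by
    rw [← an_mul]; nlinarith [hA.2.1, Real.pi_pos]
  refine ⟨hs, ?_, hp, hl⟩
  have h4 := lc x y z
  rw [h1, h2, h3] at h4
  have h5 : Real.cos (∠ y x z) = 1 - 2 * Real.sin (∠ y x z / 2) ^ 2 := by
    have h6 := Real.cos_sq' (∠ y x z / 2)
    have h7 := Real.cos_two_mul (∠ y x z / 2)
    have h8 : 2 * (∠ y x z / 2) = ∠ y x z := by ring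
    rw [h8] at h7
    rw [h7, h6]; ring
  rw [h5] at h4
  have h6 : 0 < Real.sin (∠ y x z / 2) :=
    Real.sin_pos_of_pos_of_lt_pi (by linarith) (by linarith)
  have h7 : t ^ 2 = (2 * s * Real.sin (∠ y x z / 2)) ^ 2 := by rw [h4]; ring
  exact (pow_left_inj₀ ht (by positivity) two_ne_zero).1 h7

theorem st_APEX : ST_APEX := by
  intro x y z s t h h1 h2 h3
  obtain ⟨hs, ht, hp, hl⟩ := half_angle h h1 h2 h3
  have h4 : t / (2 * s) = Real.sin (∠ y x z / 2) := by
    rw [ht]; field_simp
  constructor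
  · rw [an_mul, h4, Real.arcsin_sin (by linarith) (by linarith)]
    ring
  · have h5 : Real.sin (∠ y x z / 2) < 1 := by
      rw [← Real.sin_pi_div_two]
      exact Real.sin_lt_sin_of_lt_of_le_pi_div_two (by linarith) le_rfl (by linarith)
    rw [ht]
    nlinarith

theorem st_HINGE : ST_HINGE := by
  intro x y z x' y' z' h h' h1 h2
  have hA := st_ANG _ _ _ h
  have h3 := lc x y z
  have h4 := lc x' y' z'
  rw [← h1, ← h2] at h4
  have hd1 : 0 < dist x y := dist_pos.2 hA.2.2.2.2.1
  have hd2 : 0 < dist x z := dist_pos.2 hA.2.2.2.2.2.1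
  have hd : 0 < 2 * dist x y * dist x z := by positivity
  constructor
  · intro h5
    rw [h5, h4] at h3
    have h6 : Real.cos (∠ y x z) = Real.cos (∠ y' x' z') := by
      have h7 : 2 * dist x y * dist x z * Real.cos (∠ y x z) =
        2 * dist x y * dist x z * Real.cos (∠ y' x' z') := by linarith
      exact mul_left_cancel₀ hd.ne' h7
    have h7 := Real.injOn_cos ⟨angle_nonneg _ _ _, angle_le_pi _ _ _⟩
      ⟨angle_nonneg _ _ _, angle_le_pi _ _ _⟩ h6
    unfold an
    rw [h7]
  · intro h5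
    have h6 : dist y z ^ 2 < dist y' z' ^ 2 := by
      have := dist_nonneg (x := y) (y := z)
      nlinarith
    have h7 : Real.cos (∠ y' x' z') < Real.cos (∠ y x z) := by
      have h8 : 2 * dist x y * dist x z * Real.cos (∠ y' x' z') <
        2 * dist x y * dist x z * Real.cos (∠ y x z) := by linarith
      exact lt_of_mul_lt_mul_left h8 hd.le
    have h8 : ∠ y x z < ∠ y' x' z' := by
      by_contra hc
      push Not at hc
      exact absurd h7 (not_lt.2 (Real.cos_le_cos_of_nonneg_of_le_pi (angle_nonneg _ _ _)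
        (angle_le_pi _ _ _) hc))
    unfold an
    exact div_lt_div_of_pos_right h8 Real.pi_pos

end RTwo
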