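import Pool.Agent.Helper45.RT.Stmts2
import Pool.Agent.Helper72.RT.Geo

/-!
Project RTwo: rows PAT, LIBE.
-/

set_option autoImplicit false

namespace RTwo

/-- the chords of the pattern `F` are respected, bit by bit -/
def GoodF (m F : ℕ) (p : ℕ → ℂ) (a b : ℝ) : Prop :=
  ∀ i j, i < m → j < m →
    (F.testBit (20 * i + 2 * j) = true → dist (p i) (p j) = a) ∧
    (F.testBit (20 * i + 2 * j + 1) = true → dist (p i) (p j) = b)

theorem col_testBit (F i j e : ℕ) (he : e < 2) :
    (RTwo.col F i j).testBit e = F.testBit (20 * i + 2 * j + e) := by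
  have h : RTwo.col F i j = (F >>> (20 * i + 2 * j)) % 2 ^ 2 := rfl
  rw [h, Nat.testBit_mod_two_pow, Nat.testBit_shiftRight]
  simp [he]

theorem GoodF.okd {m F : ℕ} {p : ℕ → ℂ} {a b : ℝ} (h : GoodF m F p a b) {i j : ℕ} (hi : i < m)
    (hj : j < m) : Okd (RTwo.col F i j) a b (dist (p i) (p j)) := by
  unfold Okd
  rw [col_testBit F i j 0 (by norm_num), col_testBit F i j 1 (by norm_num)]
  exact h i j hi hj

theorem bit_shift {c s t e : ℕ} (hc : c < 4) (hs : s % 2 = 0) (ht : t % 2 = 0) (he : e < 2)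
    (h : (c <<< s).testBit (t + e) = true) : t = s ∧ c.testBit e = true := by
  rw [Nat.testBit_shiftLeft] at h
  simp only [Bool.and_eq_true, decide_eq_true_eq] at h
  obtain ⟨h1, h2⟩ := h
  have h3 : t + e - s < 2 := by
    by_contra hcon
    push Not at hcon
    have h4 : c < 2 ^ (t + e - s) :=
      lt_of_lt_of_le hc (by calc (4 : ℕ) = 2 ^ 2 := rfl
        _ ≤ 2 ^ (t + e - s) := Nat.pow_le_pow_right (by norm_num) hcon)
    rw [Nat.testBit_lt_two_pow h4] at h2
    exact absurd h2 (by simp)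
  have h4 : t = s := by omega
  subst h4
  refine ⟨rfl, ?_⟩
  rwa [Nat.add_sub_cancel_left] at h2

/-- one chord of colour `c` between `x` and `y` -/
theorem goodF_chord {m x y c : ℕ} {p : ℕ → ℂ} {a b : ℝ} (hm : m ≤ 10) (hx : x < m) (hy : y < m)
    (hc : c < 4) (h : Okd c a b (dist (p x) (p y))) : GoodF m (c <<< (20 * x + 2 * y)) p a b := by
  intro i j hi hj
  have key : ∀ e, e < 2 → (c <<< (20 * x + 2 * y)).testBit (20 * i + 2 * j + e) = true →
      i = x ∧ j = y ∧ c.testBit e = true := by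
    intro e he h1
    obtain ⟨h2, h3⟩ := bit_shift hc (by omega) (by omega) he h1
    exact ⟨by omega, by omega, h3⟩
  constructor
  · intro h1
    obtain ⟨rfl, rfl, h2⟩ := key 0 (by norm_num) h1
    exact h.1 h2
  · intro h1
    obtain ⟨rfl, rfl, h2⟩ := key 1 (by norm_num) h1
    exact h.2 h2

theorem GoodF.or {m F G : ℕ} {p : ℕ → ℂ} {a b : ℝ} (h1 : GoodF m F p a b)
    (h2 : GoodF m G p a b) : GoodF m (F ||| G) p a b := by
  intro i j hi hj
  constructor
  · intro h
    rw [Nat.testBit_or, Bool.or_eq_true] at h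
    exact h.elim (h1 i j hi hj).1 (h2 i j hi hj).1
  · intro h
    rw [Nat.testBit_or, Bool.or_eq_true] at h
    exact h.elim (h1 i j hi hj).2 (h2 i j hi hj).2

theorem goodF_zero (m : ℕ) (p : ℕ → ℂ) (a b : ℝ) : GoodF m 0 p a b := by
  intro i j _ _
  simp

theorem pat_zero (W acc : ℕ) : pat 0 W acc = acc := rfl

theorem pat_succ (f W acc : ℕ) : pat (f + 1) W acc = if W = 0 then acc else
    pat f (W >>> 10) (acc ||| (((W >>> 8 % 4) <<< (20 * (W % 16) + 2 * (W >>> 4 % 16))) |||
      ((W >>> 8 % 4) <<< (20 * (W >>> 4 % 16) + 2 * (W % 16))))) := by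
  by_cases h : W = 0
  · rw [if_pos h, h]
    rfl
  · rw [if_neg h]
    have h1 : Nat.beq W 0 = false := by
      cases W with
      | zero => exact absurd rfl h
      | succ n => rfl
    change seln (Nat.beq W 0) acc _ = _
    rw [h1]
    rfl

theorem sel_tt (x y : Bool) : sel true x y = x := rfl

theorem sel_ff (x y : Bool) : sel false x y = y := rfl

theorem and3_eq (a b c : Bool) : and3 a b c = true ↔ a = true ∧ b = true ∧ c = true := by
  cases a <;> cases b <;> cases c <;> simp [and3, sel]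

theorem beq_zero_of {W : ℕ} (h : W ≠ 0) : Nat.beq W 0 = false := by
  cases W with
  | zero => exact absurd rfl h
  | succ n => rfl

theorem okW_succ {m f W : ℕ} (h0 : W ≠ 0) (h : okW m (f + 1) W = true) :
    W % 16 < m ∧ W / 16 % 16 < m ∧ okW m f (W / 1024) = true := by
  have h1 : okW m (f + 1) W = and3 (Nat.ble (Nat.succ (Nat.mod W 16)) m)
      (Nat.ble (Nat.succ (Nat.mod (Nat.shiftRight W 4) 16)) m) (okW m f (Nat.shiftRight W 10)) := by
    change sel (Nat.beq W 0) true _ = _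
    rw [beq_zero_of h0]
    rfl
  rw [h1, and3_eq] at h
  obtain ⟨h2, h3, h4⟩ := h
  have h2' := Nat.le_of_ble_eq_true h2
  have h3' := Nat.le_of_ble_eq_true h3
  have e1 : Nat.shiftRight W 4 = W / 16 := Nat.shiftRight_eq_div_pow W 4
  have e2 : Nat.shiftRight W 10 = W / 1024 := Nat.shiftRight_eq_div_pow W 10
  rw [e1] at h3'
  rw [e2] at h4
  exact ⟨h2', h3', h4⟩

theorem pat_good {m : ℕ} {p : ℕ → ℂ} {a b : ℝ} (hm : m ≤ 10) :
    ∀ (f W acc : ℕ), okW m f W = true → chords m p a b f W → GoodF m acc p a b →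
      GoodF m (pat f W acc) p a b := by
  intro f
  induction f with
  | zero =>
    intro W acc _ _ h
    exact h
  | succ f ih =>
    intro W acc h1 h2 h
    rw [pat_succ]
    split_ifs with h0
    · exact h
    obtain ⟨h3, h4, h5⟩ := okW_succ h0 h1
    have h6 := (h2.resolve_left h0)
    have e1 : W >>> 4 = W / 16 := Nat.shiftRight_eq_div_pow W 4
    have e2 : W >>> 10 = W / 1024 := Nat.shiftRight_eq_div_pow W 10
    have e3 : W >>> 8 = W / 256 := Nat.shiftRight_eq_div_pow W 8
    rw [e1, e2, e3]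
    have hO := h6.1 h3 h4
    have hO' : Okd (W / 256 % 4) a b (dist (p (W / 16 % 16)) (p (W % 16))) := by
      rw [dist_comm]; exact hO
    have hc : W / 256 % 4 < 4 := Nat.mod_lt _ (by norm_num)
    exact ih _ _ h5 h6.2 (h.or ((goodF_chord hm h3 h4 hc hO).or (goodF_chord hm h4 h3 hc hO')))

theorem st_PAT : ST_PAT := by
  intro m W p a b hm h1 h2 i j hi hj
  exact (pat_good hm 20 W 0 h1 h2 (goodF_zero m p a b)).okd hi hj

theorem st_LIBE (hF : ST_FARK) : ST_LIBE := by
  intro C E s hC h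
  rintro ⟨p, a, b, hpos, ha, hab, hI, hch⟩
  unfold libE at h
  rw [and3_eq] at h
  obtain ⟨h1, h2, h3⟩ := h
  have hm : E % 16 ≤ 10 := Nat.le_of_ble_eq_true h1
  have e1 : Nat.shiftRight E 4 = E / 16 := Nat.shiftRight_eq_div_pow E 4
  rw [e1] at h2 h3
  obtain ⟨φ, hφ⟩ := st_PHI _ p hpos
  refine hF C (E % 16) (pat 20 (E / 16) 0) p a b (2 * Real.arcsin (b / (2 * a)) / Real.pi)
    (2 * Real.arcsin (a / (2 * b)) / Real.pi) φ ?_ hC s h3
  exact
    { m_le := hm
      pos := hpos
      ha := ha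
      hab := hab
      ok := hI
      col := st_PAT _ _ _ _ _ hm h2 hch
      alpha := div_mul_cancel₀ _ Real.pi_ne_zero
      beta := div_mul_cancel₀ _ Real.pi_ne_zero
      phi := hφ }

end RTwo
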