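import Pool.Agent.Helper72.RT.Geo

/-!
Project RTwo: law of sines and isosceles triangles over the same base (rows SINL, BASE2).
-/

set_option autoImplicit false

namespace RTwo

open EuclideanGeometry Set

/-- `κ sin x < sin (κ x)` -/
theorem sin_mul_lt {κ x : ℝ} (h0 : 0 < κ) (h1 : κ < 1) (hx : 0 < x) (hx1 : x ≤ Real.pi) :
    κ * Real.sin x < Real.sin (κ * x) := by
  have h2 : (0 : ℝ) < 1 - κ := by linarith
  have h3 : 1 - κ + κ = 1 := by ring
  have m0 : (0 : ℝ) ∈ Icc 0 Real.pi := ⟨le_rfl, Real.pi_pos.le⟩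
  have mx : x ∈ Icc 0 Real.pi := ⟨hx.le, hx1⟩
  have h := strictConcaveOn_sin_Icc.2 m0 mx hx.ne h2 h0 h3
  simpa using h

theorem lt_of_sin_lt {u w : ℝ} (hw0 : 0 ≤ w) (hu : u ≤ Real.pi / 2)
    (h : Real.sin u < Real.sin w) : u < w := by
  by_contra hc
  push Not at hc
  exact absurd h (not_lt.2 (Real.sin_le_sin_of_le_of_le_pi_div_two
    (by linarith [Real.pi_pos]) hu hc))

theorem st_SINL : ST_SINL := by
  intro x y z a b κ h ha hab h1 h2 hκ hκ1
  have hb : 0 < b := ha.trans hab
  have hA := st_ANG _ _ _ h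
  have hp := Real.pi_pos
  set A : ℝ := ∠ y x z with hAdef
  set B : ℝ := ∠ x y z with hBdef
  have eA : an x y z * Real.pi = A := an_mul _ _ _
  have eB : an y x z * Real.pi = B := an_mul _ _ _
  have hA0 : 0 < A := by rw [← eA]; exact mul_pos hA.1 hp
  have h' : cr y x z ≠ 0 := by
    intro h0; apply h; unfold cr at h0 ⊢; linarith
  have hB := st_ANG _ _ _ h'
  have hB0 : 0 < B := by rw [← eB]; exact mul_pos hB.1 hp
  have hz0 : 0 < an z x y := by
    have h'' : cr z x y ≠ 0 := by
      intro h0; apply h; unfold cr at h0 ⊢; linarith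
    exact (st_ANG _ _ _ h'').1
  have hsum : A + B < Real.pi := by
    have h3 := hA.2.2.2.1
    rw [an_comm y z x] at h3
    rw [← eA, ← eB]
    nlinarith
  have hAB : A < B := by
    have h3 := (st_ISO x y z h).2 (by rw [h1, h2]; exact hab)
    rw [← eA, ← eB]
    exact mul_lt_mul_of_pos_right h3 hp
  -- law of sines
  have hls : Real.sin A * b = Real.sin B * a := by
    have h3 := law_sin x y z
    -- sin ∠ x y z * dist y z = sin ∠ z x y * dist z x
    rw [dist_comm z x, h1, h2, EuclideanGeometry.angle_comm z x y] at h3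
    rw [hAdef, hBdef]
    linarith
  have hsB : 0 < Real.sin B := Real.sin_pos_of_pos_of_lt_pi hB0 (by linarith)
  have hκ0 : 0 < κ := by
    by_contra hc
    push Not at hc
    nlinarith
  have hsA : Real.sin A ≤ κ * Real.sin B := by
    have h3 : Real.sin A * b ≤ κ * Real.sin B * b := by nlinarith
    exact le_of_mul_le_mul_right h3 hb
  have hA2 : A < Real.pi / 2 := by linarith
  -- both bounds
  have key : ∀ B' : ℝ, 0 < B' → B' < Real.pi → Real.sin B' = Real.sin B → A < B' →
      A < κ * B' := by
    intro B' hB'0 hB'1 hs hlt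
    rcases eq_or_lt_of_le hκ1 with h3 | h3
    · rw [h3, one_mul]; exact hlt
    · apply lt_of_sin_lt (by positivity) hA2.le
      calc Real.sin A ≤ κ * Real.sin B' := by rw [hs]; exact hsA
        _ < Real.sin (κ * B') := sin_mul_lt hκ0 h3 hB'0 hB'1.le
  have k1 := key B hB0 (by linarith) rfl hAB
  have k2 := key (Real.pi - B) (by linarith) (by linarith) (Real.sin_pi_sub _) (by linarith)
  refine ⟨?_, ?_, ?_⟩
  · have h3 : an x y z * Real.pi < κ * an y x z * Real.pi := by rw [mul_assoc, eA, eB]; exact k1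
    exact lt_of_mul_lt_mul_right h3 hp.le
  · have h3 : an x y z * Real.pi < κ * (1 - an y x z) * Real.pi := by
      have h4 : κ * (1 - an y x z) * Real.pi = κ * (Real.pi - B) := by
        rw [← eB]; ring
      rw [h4, eA]; exact k2
    exact lt_of_mul_lt_mul_right h3 hp.le
  · rw [eA]
    have h3 : Real.sin A ≤ a / b := by
      rw [le_div_iff₀ hb, hls]
      nlinarith [Real.sin_le_one B]
    have h4 := Real.arcsin_le_arcsin h3
    rwa [Real.arcsin_sin (by linarith) hA2.le] at h4

/-- `sin (t g) ≤ sin g * sin (t π / 2)` -/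
theorem sin_prod {t g : ℝ} (ht0 : 0 < t) (ht1 : t < 1) (hg0 : 0 < g) (hg1 : g ≤ Real.pi / 2) :
    Real.sin (t * g) ≤ Real.sin g * Real.sin (t * (Real.pi / 2)) := by
  have hp := Real.pi_pos
  -- the numerator of the derivative
  have hG : ∀ u, 0 ≤ u → u ≤ Real.pi / 2 →
      0 ≤ t * Real.cos (t * u) * Real.sin u - Real.sin (t * u) * Real.cos u := by
    have hmono : MonotoneOn (fun u => t * Real.cos (t * u) * Real.sin u -
        Real.sin (t * u) * Real.cos u) (Icc 0 (Real.pi / 2)) := by
      have hd : ∀ u : ℝ, HasDerivAt (fun u => t * Real.cos (t * u) * Real.sin u -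
          Real.sin (t * u) * Real.cos u) ((1 - t ^ 2) * (Real.sin (t * u) * Real.sin u)) u := by
        intro u
        have h1 : HasDerivAt (fun u : ℝ => t * u) t u := by
          simpa using (hasDerivAt_id u).const_mul t
        have h2 : HasDerivAt (fun u => Real.cos (t * u)) (-Real.sin (t * u) * t) u :=
          (Real.hasDerivAt_cos (t * u)).comp u h1
        have h3 : HasDerivAt (fun u => Real.sin (t * u)) (Real.cos (t * u) * t) u :=
          (Real.hasDerivAt_sin (t * u)).comp u h1
        have h4 := ((h2.const_mul t).mul (Real.hasDerivAt_sin u)).sub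
          (h3.mul (Real.hasDerivAt_cos u))
        refine h4.congr_deriv ?_
        ring
      refine monotoneOn_of_deriv_nonneg (convex_Icc _ _)
        (fun u _ => (hd u).continuousAt.continuousWithinAt)
        (fun u _ => (hd u).differentiableAt.differentiableWithinAt) ?_
      intro u hu
      rw [interior_Icc] at hu
      rw [(hd u).deriv]
      have h1 : 0 ≤ Real.sin u := Real.sin_nonneg_of_nonneg_of_le_pi hu.1.le (by linarith [hu.2])
      have h2 : 0 ≤ Real.sin (t * u) := by
        apply Real.sin_nonneg_of_nonneg_of_le_pi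
        · have := hu.1; positivity
        · nlinarith [hu.1, hu.2]
      have h3 : 0 ≤ 1 - t ^ 2 := by nlinarith
      positivity
    intro u h0 h1
    have h2 := hmono (left_mem_Icc.2 (h0.trans h1)) (⟨h0, h1⟩ : u ∈ Icc 0 (Real.pi / 2)) h0
    simpa using h2
  have hmono : MonotoneOn (fun u => Real.sin (t * u) / Real.sin u) (Icc g (Real.pi / 2)) := by
    have hsp : ∀ u ∈ Icc g (Real.pi / 2), 0 < Real.sin u := by
      intro u hu
      exact Real.sin_pos_of_pos_of_lt_pi (hg0.trans_le hu.1) (by linarith [hu.2])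
    have hd : ∀ u ∈ Icc g (Real.pi / 2), HasDerivAt (fun u => Real.sin (t * u) / Real.sin u)
        ((t * Real.cos (t * u) * Real.sin u - Real.sin (t * u) * Real.cos u) /
          Real.sin u ^ 2) u := by
      intro u hu
      have h1 : HasDerivAt (fun u : ℝ => t * u) t u := by
        simpa using (hasDerivAt_id u).const_mul t
      have h3 : HasDerivAt (fun u => Real.sin (t * u)) (Real.cos (t * u) * t) u :=
        (Real.hasDerivAt_sin (t * u)).comp u h1
      have h4 := h3.div (Real.hasDerivAt_sin u) (hsp u hu).ne'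
      refine h4.congr_deriv ?_
      ring
    refine monotoneOn_of_deriv_nonneg (convex_Icc _ _)
      (fun u hu => (hd u hu).continuousAt.continuousWithinAt) ?_ ?_
    · intro u hu
      exact (hd u (interior_subset hu)).differentiableAt.differentiableWithinAt
    · intro u hu
      have hu' := interior_subset hu
      rw [(hd u hu').deriv]
      exact div_nonneg (hG u (hg0.le.trans hu'.1) hu'.2) (sq_nonneg _)
  have h := hmono (left_mem_Icc.2 hg1) (right_mem_Icc.2 hg1) hg1
  simp only [Real.sin_pi_div_two, div_one] at h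
  have hsg : 0 < Real.sin g := Real.sin_pos_of_pos_of_lt_pi hg0 (by linarith)
  rw [div_le_iff₀ hsg] at h
  linarith

theorem st_BASE2 : ST_BASE2 := by
  intro x x' y z a b κ q h h' ha hab h1 h2 h3 h4 hκ hκ1 hq
  have hp := Real.pi_pos
  have hb : 0 < b := ha.trans hab
  obtain ⟨-, e1, hθ0, hθ1⟩ := half_angle (t := dist y z) h h1 h2 rfl
  obtain ⟨-, e2, hφ0, hφ1⟩ := half_angle (t := dist y z) h' h3 h4 rfl
  set θ : ℝ := ∠ y x z with hθ
  set φ : ℝ := ∠ y x' z with hφ
  have eθ : an x y z * Real.pi = θ := an_mul _ _ _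
  have eφ : an x' y z * Real.pi = φ := an_mul _ _ _
  have hs : b * Real.sin (φ / 2) = a * Real.sin (θ / 2) := by
    rw [e1] at e2; linarith
  have hsθ : 0 < Real.sin (θ / 2) := Real.sin_pos_of_pos_of_lt_pi (by linarith) (by linarith)
  have hκ0 : 0 < κ := by
    by_contra hc
    push Not at hc
    nlinarith
  have hs1 : Real.sin (φ / 2) ≤ κ * Real.sin (θ / 2) := by
    have h5 : b * Real.sin (φ / 2) ≤ b * (κ * Real.sin (θ / 2)) := by
      rw [hs]
      nlinarith
    exact le_of_mul_le_mul_left h5 hb
  have hsle : Real.sin (φ / 2) = a / b * Real.sin (θ / 2) := by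
    field_simp
    linarith
  have hab1 : a / b < 1 := (div_lt_one hb).2 hab
  have hab0 : 0 < a / b := div_pos ha hb
  set g : ℝ := Real.arcsin (a / b) with hg
  have hg0 : 0 < g := Real.arcsin_pos.2 hab0
  have hg1 : g ≤ Real.pi / 2 := Real.arcsin_le_pi_div_two _
  have hsg : Real.sin g = a / b := Real.sin_arcsin (by linarith) hab1.le
  refine ⟨?_, ?_, ?_⟩
  · have h5 : φ / 2 < κ * (θ / 2) := by
      rcases eq_or_lt_of_le hκ1 with h6 | h6
      · rw [h6, one_mul]
        apply lt_of_sin_lt (by linarith) (by linarith)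
        rw [hsle]
        nlinarith
      · apply lt_of_sin_lt (by positivity) (by linarith)
        exact hs1.trans_lt (sin_mul_lt hκ0 h6 (by linarith) (by linarith))
    have h6 : an x' y z * Real.pi < κ * an x y z * Real.pi := by
      rw [mul_assoc, eθ, eφ]; linarith
    exact lt_of_mul_lt_mul_right h6 hp.le
  · -- `t = θ / π`
    set t : ℝ := θ / Real.pi with ht
    have ht0 : 0 < t := div_pos hθ0 hp
    have ht1 : t < 1 := (div_lt_one hp).2 hθ1
    have h5 := sin_prod ht0 ht1 hg0 hg1
    have h6 : t * (Real.pi / 2) = θ / 2 := by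
      rw [ht]; field_simp
    rw [h6, hsg, ← hsle] at h5
    have h7 : t * g ≤ φ / 2 := by
      by_contra hc
      push Not at hc
      have h8 : Real.sin (φ / 2) < Real.sin (t * g) :=
        Real.sin_lt_sin_of_lt_of_le_pi_div_two (by linarith) (by nlinarith) hc
      linarith
    have h8 : q * an x y z * Real.pi < an x' y z * Real.pi := by
      rw [mul_assoc, eθ, eφ]
      have h9 : q * θ < 2 / Real.pi * g * θ := mul_lt_mul_of_pos_right hq hθ0
      have h10 : 2 / Real.pi * g * θ = 2 * (t * g) := by rw [ht]; field_simp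
      linarith
    exact lt_of_mul_lt_mul_right h8 hp.le
  · rw [eφ]
    have h5 : Real.sin (φ / 2) ≤ a / b := by
      rw [hsle]
      nlinarith [Real.sin_le_one (θ / 2)]
    have h6 := Real.arcsin_le_arcsin h5
    rw [Real.arcsin_sin (by linarith) (by linarith)] at h6
    linarith

end RTwo
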