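import Pool.Agent.Helper70.RT.Sheet
import Pool.Agent.Helper61.R9.ROOT

/-! # Row SVS of the sheet for `N_10(H) ≥ c H ^ (1/9)` (MP_798d7d_nt) -/

set_option autoImplicit false

namespace Pool.Helper70.RT

open Finset Polynomial

namespace S72S

section
variable {R S : Type*} [CommRing R] [CommRing S]

theorem map_fI (φ : R →+* S) (U V t : R) : φ (fI U V t) = fI (φ U) (φ V) (φ t) := by
  simp only [fI, q4, q3, q2, q1, q0, e2, e3, g0, h3, h2, h1, h0, map_add, map_sub, map_mul,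
    map_pow, map_neg, map_ofNat]

theorem map_fJ (φ : R →+* S) (U V t : R) : φ (fJ U V t) = fJ (φ U) (φ V) (φ t) := by
  simp only [fJ, q4, q3, q2, q1, q0, e2, e3, g0, h3, h2, h1, h0, map_add, map_sub, map_mul,
    map_pow, map_neg, map_ofNat]

theorem eval_pI (U V t : R) : (pI U V).eval t = fI U V t := by
  unfold pI
  rw [← coe_evalRingHom, map_fI]
  simp

theorem eval_pJ (U V t : R) : (pJ U V).eval t = fJ U V t := by
  unfold pJ
  rw [← coe_evalRingHom, map_fJ]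
  simp

theorem fI_eq (U V : R) : ∃ a b c : R, ∀ t, fI U V t = 48 * t ^ 3 + a * t ^ 2 + b * t + c := by
  refine ⟨96 * g0 U V + 4 * e2 U V ^ 2,
    48 * h0 U V + 6 * h3 U V * e3 U V + 4 * e2 U V * h2 U V,
    -3 * h3 U V * h1 U V + h2 U V ^ 2, fun t => ?_⟩
  unfold fI q4 q3 q2 q1 q0
  ring

theorem Ce2 (U V : R) : e2 (C U) (C V) = C (e2 U V) := by
  simp only [e2, map_add, map_sub, map_mul, map_pow, map_neg, map_ofNat]
theorem Ce3 (U V : R) : e3 (C U) (C V) = C (e3 U V) := by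
  simp only [e3, map_add, map_sub, map_mul, map_pow, map_ofNat]
theorem Cg0 (U V : R) : g0 (C U) (C V) = C (g0 U V) := by
  simp only [g0, map_add, map_sub, map_mul, map_pow, map_neg, map_ofNat]
theorem Ch3 (U V : R) : h3 (C U) (C V) = C (h3 U V) := by
  simp only [h3, map_add, map_sub, map_mul, map_pow, map_neg, map_ofNat]
theorem Ch2 (U V : R) : h2 (C U) (C V) = C (h2 U V) := by
  simp only [h2, map_add, map_sub, map_mul, map_pow, map_ofNat]
theorem Ch1 (U V : R) : h1 (C U) (C V) = C (h1 U V) := by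
  simp only [h1, map_add, map_sub, map_mul, map_pow, map_ofNat]
theorem Ch0 (U V : R) : h0 (C U) (C V) = C (h0 U V) := by
  simp only [h0, map_add, map_sub, map_mul, map_pow, map_ofNat]

theorem deg_pI (U V : R) : (pI U V).natDegree ≤ 3 := by
  unfold pI fI q4 q3 q2 q1 q0
  rw [Ce2, Ce3, Cg0, Ch3, Ch2, Ch1, Ch0]
  compute_degree

theorem deg_pJ (U V : R) : (pJ U V).natDegree ≤ 4 := by
  unfold pJ fJ q4 q3 q2 q1 q0
  rw [Ce2, Ce3, Cg0, Ch3, Ch2, Ch1, Ch0]
  compute_degree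

end

theorem QQ_big : 10000000 ≤ QQ := by
  unfold QQ
  omega

theorem nd_small (q : ℕ) (hq : QQ < q) (n : ℤ) (h0 : n ≠ 0) (h1 : |n| ≤ 10000000) :
    ¬ (q : ℤ) ∣ n := by
  intro h
  have h2 := Int.le_of_dvd (abs_pos.2 h0) ((dvd_abs _ _).2 h)
  have := QQ_big
  omega

theorem nd_MM (q : ℕ) (hp : q.Prime) (hq : QQ < q) : ¬ (q : ℤ) ∣ MM := by
  intro h
  unfold MM at h
  rcases (Nat.prime_iff_prime_int.1 hp).dvd_or_dvd h with h1 | h1
  · exact nd_small q hq 1728 (by norm_num) (by norm_num) h1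
  · have h2 : q ∣ Nat.factorial QQ := Int.natCast_dvd_natCast.1 h1
    rw [hp.dvd_factorial] at h2
    omega

/-- the polynomial in the third parameter -/
theorem polyz (U V : ℤ) : ∃ W : ℤ[X], W.natDegree ≤ 6 ∧ W.coeff 6 = 48 * MM ^ 6 ∧
    ∀ x : ℤ, W.eval x = fI U V ((5 + MM * x) ^ 2) := by
  obtain ⟨a, b, c, h⟩ := fI_eq U V
  obtain ⟨L, hL⟩ : ∃ L : ℤ[X], L = C 5 + C MM * X := ⟨_, rfl⟩
  have hL1 : L.natDegree ≤ 1 := by
    rw [hL]
    compute_degree
  have hLc : L.coeff 1 = MM := by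
    rw [hL, coeff_add, coeff_C_mul, coeff_X_one, coeff_C_of_ne_zero (by norm_num)]
    ring
  have hL6 : (L ^ 6).natDegree ≤ 6 := natDegree_pow_le_of_le 6 hL1
  have hL4 : (L ^ 4).natDegree ≤ 4 := natDegree_pow_le_of_le 4 hL1
  have hL2 : (L ^ 2).natDegree ≤ 2 := natDegree_pow_le_of_le 2 hL1
  have hLc6 : (L ^ 6).coeff 6 = MM ^ 6 := by
    have h5 := coeff_pow_of_natDegree_le (m := 6) hL1
    rw [show 1 * 6 = 6 by norm_num] at h5
    rw [h5, hLc]
  refine ⟨C 48 * L ^ 6 + C a * L ^ 4 + C b * L ^ 2 + C c, ?_, ?_, ?_⟩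
  · refine natDegree_add_le_of_degree_le (natDegree_add_le_of_degree_le
      (natDegree_add_le_of_degree_le ?_ ?_) ?_) ?_
    · exact (natDegree_C_mul_le _ _).trans hL6
    · exact (natDegree_C_mul_le _ _).trans (hL4.trans (by norm_num))
    · exact (natDegree_C_mul_le _ _).trans (hL2.trans (by norm_num))
    · rw [natDegree_C]
      exact Nat.zero_le _
  · rw [coeff_add, coeff_add, coeff_add, coeff_C_mul, coeff_C_mul, coeff_C_mul, hLc6,
      coeff_eq_zero_of_natDegree_lt (lt_of_le_of_lt hL4 (by norm_num)),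
      coeff_eq_zero_of_natDegree_lt (lt_of_le_of_lt hL2 (by norm_num)),
      coeff_C_of_ne_zero (by norm_num)]
    ring
  · intro x
    rw [h]
    simp only [eval_add, eval_mul, eval_pow, eval_C, eval_X, hL]
    ring

section
variable {R S : Type*} [CommRing R] [CommRing S]

theorem map_pI (φ : R →+* S) (U V : R) : (pI U V).map φ = pI (φ U) (φ V) := by
  unfold pI
  have := map_fI (mapRingHom φ) (C U) (C V) X
  simpa using this

theorem map_pJ (φ : R →+* S) (U V : R) : (pJ U V).map φ = pJ (φ U) (φ V) := by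
  unfold pJ
  have := map_fJ (mapRingHom φ) (C U) (C V) X
  simpa using this

theorem map_Ru (φ : R →+* S) (U V : R) : φ (Ru U V) = Ru (φ U) (φ V) := by
  unfold Ru
  rw [RingHom.map_det]
  congr 1
  ext i j
  simp only [RingHom.mapMatrix_apply, Matrix.map_apply, syl, Matrix.of_apply]
  split_ifs
  · rw [← map_pI, coeff_map]
  · exact map_zero φ
  · rw [← map_pJ, coeff_map]
  · exact map_zero φ

end

/-- a residue class -/
theorem fibre (m q : ℕ) (hp : q.Prime) (hq : QQ < q) (k : ℤ) (u : ZMod q) :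
    ((range m).filter (fun a : ℕ => ((k + MM * (a : ℤ) : ℤ) : ZMod q) = u)).card ≤ m / q + 1 := by
  have : NeZero q := ⟨hp.ne_zero⟩
  have h := Pool.Helper34.R9.st_ROOT (C (k - (u.val : ℤ)) + C MM * X) 1 q m hp
    (by compute_degree)
    (by
      rw [coeff_add, coeff_C_mul, coeff_X_one, coeff_C_of_ne_zero (by norm_num), zero_add, mul_one]
      exact nd_MM q hp hq)
    ((range m).filter (fun a : ℕ => ((k + MM * (a : ℤ) : ℤ) : ZMod q) = u)) (by
      intro a ha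
      rw [mem_filter, mem_range] at ha
      refine ⟨ha.1, ?_⟩
      rw [← ZMod.intCast_zmod_eq_zero_iff_dvd]
      simp only [eval_add, eval_mul, eval_C, eval_X]
      have h1 : (k - (u.val : ℤ) + MM * (a : ℤ) : ℤ) = (k + MM * (a : ℤ)) - (u.val : ℤ) := by ring
      rw [h1, Int.cast_sub, ha.2]
      simp)
  omega

end S72S

open S72S in
open Classical in
theorem st_SVS (hR : ST_REL) (hRes : ST_RES) (hD : ST_RDEG) : ST_SVS := by
  intro m q hq hqQ hqm
  have : Fact q.Prime := ⟨hq⟩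
  have hcong : ∀ T, Cong (ww T) := by
    intro T
    refine ⟨⟨(T.1 : ℤ), ?_⟩, ⟨(T.2.1 : ℤ), ?_⟩, ⟨(T.2.2 : ℤ), ?_⟩⟩
    · simp only [ww]
      ring
    · simp only [ww]
      ring
    · simp only [ww]
      ring
  obtain ⟨P, hP0, hPd, hPe⟩ := hD q hq hqQ
  -- the zeros
  obtain ⟨Z, hZ⟩ : ∃ Z : Finset (Fin 2 → ZMod q), Z =
    (Fintype.piFinset fun _ : Fin 2 => (univ : Finset (ZMod q))).filter
      (fun u => MvPolynomial.eval u P = 0) := ⟨_, rfl⟩
  have hZc : Z.card ≤ 1000 * q := by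
    have h1 := MvPolynomial.schwartz_zippel_totalDegree hP0 (univ : Finset (ZMod q))
    rw [← hZ, card_univ, ZMod.card] at h1
    have hq0 : (0 : ℚ≥0) < q := by exact_mod_cast hq.pos
    rw [div_le_div_iff₀ (by positivity) hq0] at h1
    have h2 : Z.card * q ≤ P.totalDegree * q ^ 2 := by exact_mod_cast h1
    have h3 : Z.card * q ≤ (1000 * q) * q := by
      calc Z.card * q ≤ P.totalDegree * q ^ 2 := h2
        _ ≤ 1000 * q ^ 2 := Nat.mul_le_mul_right _ hPd
        _ = (1000 * q) * q := by ring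
    exact Nat.le_of_mul_le_mul_right h3 hq.pos
  -- the pairs
  obtain ⟨F, hF⟩ : ∃ F : Finset (ℕ × ℕ), F = (range m ×ˢ range m).filter
    (fun p => (q : ℤ) ∣ Ru (4 + MM * (p.1 : ℤ)) (-1 + MM * (p.2 : ℤ))) := ⟨_, rfl⟩
  have hFc : F.card ≤ ((m / q + 1) * (m / q + 1)) * Z.card := by
    refine card_le_mul_card_image_of_maps_to
      (f := fun p : ℕ × ℕ => (![((4 + MM * (p.1 : ℤ) : ℤ) : ZMod q),
        ((-1 + MM * (p.2 : ℤ) : ℤ) : ZMod q)] : Fin 2 → ZMod q)) ?_ _ ?_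
    · intro p hp
      rw [hF, mem_filter] at hp
      rw [hZ]
      refine mem_filter.2 ⟨Fintype.mem_piFinset.2 fun _ => mem_univ _, ?_⟩
      rw [hPe]
      have h1 := map_Ru (Int.castRingHom (ZMod q)) (4 + MM * (p.1 : ℤ)) (-1 + MM * (p.2 : ℤ))
      have h2 : (Int.castRingHom (ZMod q)) (Ru (4 + MM * (p.1 : ℤ)) (-1 + MM * (p.2 : ℤ))) = 0 :=
        (ZMod.intCast_zmod_eq_zero_iff_dvd _ q).2 hp.2
      rw [h2] at h1
      exact h1.symm
    · intro u _
      refine le_trans (card_le_card (t := ((range m).filter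
        (fun a : ℕ => ((4 + MM * (a : ℤ) : ℤ) : ZMod q) = u 0)) ×ˢ ((range m).filter
        (fun a : ℕ => ((-1 + MM * (a : ℤ) : ℤ) : ZMod q) = u 1))) ?_) ?_
      · intro p hp
        rw [mem_filter, hF, mem_filter, mem_product] at hp
        rw [mem_product, mem_filter, mem_filter]
        exact ⟨⟨hp.1.1.1, congrFun hp.2 0⟩, ⟨hp.1.1.2, congrFun hp.2 1⟩⟩
      · rw [card_product]
        exact Nat.mul_le_mul (fibre m q hq hqQ 4 (u 0)) (fibre m q hq hqQ (-1) (u 1))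
  -- the members
  have hsub : (Box m).filter (fun T => (q : ℤ) ∣ cA (ww T) ∧ (q : ℤ) ∣ cB (ww T)) ⊆
      F.biUnion (fun p => ((range (m ^ 2)).filter (fun z : ℕ => (q : ℤ) ∣
        fI (4 + MM * (p.1 : ℤ)) (-1 + MM * (p.2 : ℤ)) ((5 + MM * (z : ℤ)) ^ 2))).image
        (fun z => (p.1, p.2, z))) := by
    intro T hT
    rw [mem_filter] at hT
    obtain ⟨hT1, hqA, hqB⟩ := hT
    unfold Box at hT1
    rw [mem_product, mem_product] at hT1
    have hfI : (q : ℤ) ∣ fI (ww T).1 (ww T).2.1 ((ww T).2.2 ^ 2) := by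
      have := (hR (ww T) (hcong T)).1
      have e : fI (ww T).1 (ww T).2.1 ((ww T).2.2 ^ 2) = -(48 * cA (ww T)) := by linarith
      rw [e]
      exact (Dvd.dvd.mul_left hqA _).neg_right
    have hfJ : (q : ℤ) ∣ fJ (ww T).1 (ww T).2.1 ((ww T).2.2 ^ 2) := by
      have := (hR (ww T) (hcong T)).2.1
      have e : fJ (ww T).1 (ww T).2.1 ((ww T).2.2 ^ 2) = -(1728 * cB (ww T)) := by linarith
      rw [e]
      exact (Dvd.dvd.mul_left hqB _).neg_right
    refine mem_biUnion.2 ⟨(T.1, T.2.1), ?_, ?_⟩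
    · rw [hF]
      refine mem_filter.2 ⟨mem_product.2 ⟨hT1.1, hT1.2.1⟩, ?_⟩
      exact hRes _ _ (deg_pI _ _) (deg_pJ _ _) q ((ww T).2.2 ^ 2)
        (by rw [eval_pI]; exact hfI) (by rw [eval_pJ]; exact hfJ)
    · exact mem_image.2 ⟨T.2.2, mem_filter.2 ⟨hT1.2.2, hfI⟩, rfl⟩
  have hcard : ((Box m).filter (fun T => (q : ℤ) ∣ cA (ww T) ∧ (q : ℤ) ∣ cB (ww T))).card ≤
      F.card * (6 * (m ^ 2 / q + 1)) := by
    refine (card_le_card hsub).trans (card_biUnion_le.trans ?_)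
    have e2 : ∀ p ∈ F, (((range (m ^ 2)).filter (fun z : ℕ => (q : ℤ) ∣
        fI (4 + MM * (p.1 : ℤ)) (-1 + MM * (p.2 : ℤ)) ((5 + MM * (z : ℤ)) ^ 2))).image
        (fun z => (p.1, p.2, z))).card ≤ 6 * (m ^ 2 / q + 1) := by
      intro p _
      refine card_image_le.trans ?_
      obtain ⟨W, hW1, hW2, hW3⟩ := polyz (4 + MM * (p.1 : ℤ)) (-1 + MM * (p.2 : ℤ))
      have hnd : ¬ (q : ℤ) ∣ W.coeff 6 := by
        rw [hW2]
        intro h
        have hP := Nat.prime_iff_prime_int.1 hq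
        rcases hP.dvd_or_dvd h with h1 | h1
        · exact nd_small q hqQ 48 (by norm_num) (by norm_num) h1
        · exact nd_MM q hq hqQ (hP.dvd_of_dvd_pow h1)
      exact Pool.Helper34.R9.st_ROOT W 6 q (m ^ 2) hq hW1 hnd
        ((range (m ^ 2)).filter (fun z : ℕ => (q : ℤ) ∣
        fI (4 + MM * (p.1 : ℤ)) (-1 + MM * (p.2 : ℤ)) ((5 + MM * (z : ℤ)) ^ 2))) (by
          intro z hz
          rw [mem_filter, mem_range] at hz
          refine ⟨hz.1, ?_⟩
          rw [hW3]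
          exact hz.2)
    refine (sum_le_sum e2).trans ?_
    rw [sum_const, smul_eq_mul]
  -- the end
  have a1 : (m / q + 1) * q ≤ 2 * m := by
    have := Nat.div_mul_le_self m q
    have e : (m / q + 1) * q = m / q * q + q := by ring
    omega
  have a2 : (m ^ 2 / q + 1) * q ≤ 2 * m ^ 2 := by
    have h1 := Nat.div_mul_le_self (m ^ 2) q
    have e : (m ^ 2 / q + 1) * q = m ^ 2 / q * q + q := by ring
    have h2 : m ≤ m ^ 2 := Nat.le_self_pow (by norm_num) m
    omega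
  have a3 : F.card * q ≤ 4000 * m ^ 2 := by
    calc F.card * q ≤ (((m / q + 1) * (m / q + 1)) * Z.card) * q := Nat.mul_le_mul_right _ hFc
      _ ≤ (((m / q + 1) * (m / q + 1)) * (1000 * q)) * q :=
          Nat.mul_le_mul_right _ (Nat.mul_le_mul_left _ hZc)
      _ = 1000 * (((m / q + 1) * q) * ((m / q + 1) * q)) := by ring
      _ ≤ 1000 * ((2 * m) * (2 * m)) := Nat.mul_le_mul_left _ (Nat.mul_le_mul a1 a1)
      _ = 4000 * m ^ 2 := by ring
  calc ((Box m).filter (fun T => (q : ℤ) ∣ cA (ww T) ∧ (q : ℤ) ∣ cB (ww T))).card * q ^ 2 ≤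
      (F.card * (6 * (m ^ 2 / q + 1))) * q ^ 2 := Nat.mul_le_mul_right _ hcard
    _ = (F.card * q) * (6 * ((m ^ 2 / q + 1) * q)) := by ring
    _ ≤ (4000 * m ^ 2) * (6 * (2 * m ^ 2)) := Nat.mul_le_mul a3 (Nat.mul_le_mul_left _ a2)
    _ = 48000 * m ^ 4 := by ring
    _ ≤ 1000000 * m ^ 4 := Nat.mul_le_mul_right _ (by norm_num)

end Pool.Helper70.RT
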