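import Pool.Agent.Helper70.RT.Sheet
import Pool.Agent.Helper61.R9.ROOT

/-! # Row SVL of the sheet for `N_10(H) ≥ c H ^ (1/9)` (MP_798d7d_nt) -/

set_option autoImplicit false

namespace Pool.Helper70.RT

open Finset Polynomial

namespace S72

section
variable {R S : Type*} [CommRing R] [CommRing S]

theorem map_fI (φ : R →+* S) (U V t : R) : φ (fI U V t) = fI (φ U) (φ V) (φ t) := by
  simp only [fI, q4, q3, q2, q1, q0, e2, e3, g0, h3, h2, h1, h0, map_add, map_sub, map_mul,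
    map_pow, map_neg, map_ofNat]

theorem map_fJ (φ : R →+* S) (U V t : R) : φ (fJ U V t) = fJ (φ U) (φ V) (φ t) := by
  simp only [fJ, q4, q3, q2, q1, q0, e2, e3, g0, h3, h2, h1, h0, map_add, map_sub, map_mul,
    map_pow, map_neg, map_ofNat]

theorem eval_pI (U V t : R) : (pI U V).eval t = fI U V t := by
  unfold pI
  rw [← coe_evalRingHom, map_fI]
  simp

theorem eval_pJ (U V t : R) : (pJ U V).eval t = fJ U V t := by
  unfold pJ
  rw [← coe_evalRingHom, map_fJ]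
  simp

theorem fI_eq (U V : R) : ∃ a b c : R, ∀ t, fI U V t = 48 * t ^ 3 + a * t ^ 2 + b * t + c := by
  refine ⟨96 * g0 U V + 4 * e2 U V ^ 2,
    48 * h0 U V + 6 * h3 U V * e3 U V + 4 * e2 U V * h2 U V,
    -3 * h3 U V * h1 U V + h2 U V ^ 2, fun t => ?_⟩
  unfold fI q4 q3 q2 q1 q0
  ring

theorem Ce2 (U V : R) : e2 (C U) (C V) = C (e2 U V) := by
  simp only [e2, map_add, map_sub, map_mul, map_pow, map_neg, map_ofNat]
theorem Ce3 (U V : R) : e3 (C U) (C V) = C (e3 U V) := by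
  simp only [e3, map_add, map_sub, map_mul, map_pow, map_ofNat]
theorem Cg0 (U V : R) : g0 (C U) (C V) = C (g0 U V) := by
  simp only [g0, map_add, map_sub, map_mul, map_pow, map_neg, map_ofNat]
theorem Ch3 (U V : R) : h3 (C U) (C V) = C (h3 U V) := by
  simp only [h3, map_add, map_sub, map_mul, map_pow, map_neg, map_ofNat]
theorem Ch2 (U V : R) : h2 (C U) (C V) = C (h2 U V) := by
  simp only [h2, map_add, map_sub, map_mul, map_pow, map_ofNat]
theorem Ch1 (U V : R) : h1 (C U) (C V) = C (h1 U V) := by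
  simp only [h1, map_add, map_sub, map_mul, map_pow, map_ofNat]
theorem Ch0 (U V : R) : h0 (C U) (C V) = C (h0 U V) := by
  simp only [h0, map_add, map_sub, map_mul, map_pow, map_ofNat]

theorem deg_pI (U V : R) : (pI U V).natDegree ≤ 3 := by
  unfold pI fI q4 q3 q2 q1 q0
  rw [Ce2, Ce3, Cg0, Ch3, Ch2, Ch1, Ch0]
  compute_degree

theorem deg_pJ (U V : R) : (pJ U V).natDegree ≤ 4 := by
  unfold pJ fJ q4 q3 q2 q1 q0
  rw [Ce2, Ce3, Cg0, Ch3, Ch2, Ch1, Ch0]
  compute_degree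

end

theorem QQ_big : 10000000 ≤ QQ := by
  unfold QQ
  omega

theorem nd_small (q : ℕ) (hq : QQ < q) (n : ℤ) (h0 : n ≠ 0) (h1 : |n| ≤ 10000000) :
    ¬ (q : ℤ) ∣ n := by
  intro h
  have h2 := Int.le_of_dvd (abs_pos.2 h0) ((dvd_abs _ _).2 h)
  have := QQ_big
  omega

theorem nd_MM (q : ℕ) (hp : q.Prime) (hq : QQ < q) : ¬ (q : ℤ) ∣ MM := by
  intro h
  unfold MM at h
  rcases (Nat.prime_iff_prime_int.1 hp).dvd_or_dvd h with h1 | h1
  · exact nd_small q hq 1728 (by norm_num) (by norm_num) h1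
  · have h2 : q ∣ Nat.factorial QQ := Int.natCast_dvd_natCast.1 h1
    rw [hp.dvd_factorial] at h2
    omega

/-- the polynomial in the third parameter -/
theorem polyz (U V : ℤ) : ∃ W : ℤ[X], W.natDegree ≤ 6 ∧ W.coeff 6 = 48 * MM ^ 6 ∧
    ∀ x : ℤ, W.eval x = fI U V ((5 + MM * x) ^ 2) := by
  obtain ⟨a, b, c, h⟩ := fI_eq U V
  obtain ⟨L, hL⟩ : ∃ L : ℤ[X], L = C 5 + C MM * X := ⟨_, rfl⟩
  have hL1 : L.natDegree ≤ 1 := by
    rw [hL]
    compute_degree
  have hLc : L.coeff 1 = MM := by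
    rw [hL, coeff_add, coeff_C_mul, coeff_X_one, coeff_C_of_ne_zero (by norm_num)]
    ring
  have hL6 : (L ^ 6).natDegree ≤ 6 := natDegree_pow_le_of_le 6 hL1
  have hL4 : (L ^ 4).natDegree ≤ 4 := natDegree_pow_le_of_le 4 hL1
  have hL2 : (L ^ 2).natDegree ≤ 2 := natDegree_pow_le_of_le 2 hL1
  have hLc6 : (L ^ 6).coeff 6 = MM ^ 6 := by
    have h5 := coeff_pow_of_natDegree_le (m := 6) hL1
    rw [show 1 * 6 = 6 by norm_num] at h5
    rw [h5, hLc]
  refine ⟨C 48 * L ^ 6 + C a * L ^ 4 + C b * L ^ 2 + C c, ?_, ?_, ?_⟩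
  · refine natDegree_add_le_of_degree_le (natDegree_add_le_of_degree_le
      (natDegree_add_le_of_degree_le ?_ ?_) ?_) ?_
    · exact (natDegree_C_mul_le _ _).trans hL6
    · exact (natDegree_C_mul_le _ _).trans (hL4.trans (by norm_num))
    · exact (natDegree_C_mul_le _ _).trans (hL2.trans (by norm_num))
    · rw [natDegree_C]
      exact Nat.zero_le _
  · rw [coeff_add, coeff_add, coeff_add, coeff_C_mul, coeff_C_mul, coeff_C_mul, hLc6,
      coeff_eq_zero_of_natDegree_lt (lt_of_le_of_lt hL4 (by norm_num)),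
      coeff_eq_zero_of_natDegree_lt (lt_of_le_of_lt hL2 (by norm_num)),
      coeff_C_of_ne_zero (by norm_num)]
    ring
  · intro x
    rw [h]
    simp only [eval_add, eval_mul, eval_pow, eval_C, eval_X, hL]
    ring

/-- the primes above `m` which divide `x` -/
lemma big_primes (m K c : ℕ) (x : ℤ) (hx : x ≠ 0) (hm : 2 ≤ m)
    (h : |x| ≤ (c : ℤ) * (m : ℤ) ^ K) :
    (x.natAbs.primeFactors.filter (fun q => m < q)).card ≤ K + c := by
  obtain ⟨S, hS⟩ : ∃ S, S = x.natAbs.primeFactors.filter (fun q => m < q) := ⟨_, rfl⟩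
  rw [← hS]
  have h1 : m ^ S.card ≤ ∏ q ∈ S, q := by
    refine pow_card_le_prod (s := S) (f := fun q => q) (n := m) ?_
    intro q hq
    rw [hS, mem_filter] at hq
    exact hq.2.le
  have h2 : ∏ q ∈ S, q ∣ x.natAbs := by
    refine (prod_dvd_prod_of_subset _ _ _ ?_).trans (Nat.prod_primeFactors_dvd x.natAbs)
    rw [hS]
    exact filter_subset _ _
  have h3 : ∏ q ∈ S, q ≤ x.natAbs := Nat.le_of_dvd (Int.natAbs_pos.2 hx) h2
  have h4 : x.natAbs ≤ c * m ^ K := by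
    zify
    exact h
  have h5 : c < m ^ c := (Nat.lt_two_pow_self).trans_le (Nat.pow_le_pow_left hm c)
  have h6 : c * m ^ K < m ^ c * m ^ K := Nat.mul_lt_mul_of_pos_right h5 (by
    have : 0 < m := by omega
    positivity)
  rw [← pow_add] at h6
  have h7 : m ^ S.card < m ^ (c + K) := by omega
  have h8 := (Nat.pow_lt_pow_iff_right (by omega : 1 < m)).1 h7
  omega

end S72

open S72 in
open Classical in
theorem st_SVL (hR : ST_REL) (hRes : ST_RES) (hN : ST_RNZ) : ST_SVL := by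
  obtain ⟨c, hc, hN⟩ := hN
  refine ⟨12 * (1000 + c), ?_⟩
  intro m hm
  have hcong : ∀ T, Cong (ww T) := by
    intro T
    refine ⟨⟨(T.1 : ℤ), ?_⟩, ⟨(T.2.1 : ℤ), ?_⟩, ⟨(T.2.2 : ℤ), ?_⟩⟩
    · simp only [ww]
      ring
    · simp only [ww]
      ring
    · simp only [ww]
      ring
  obtain ⟨ρ, hρ⟩ : ∃ ρ : ℕ × ℕ → ℤ, ∀ p, ρ p = Ru (4 + MM * (p.1 : ℤ)) (-1 + MM * (p.2 : ℤ)) :=
    ⟨fun p => Ru (4 + MM * (p.1 : ℤ)) (-1 + MM * (p.2 : ℤ)), fun _ => rfl⟩
  obtain ⟨U, hU⟩ : ∃ U, U = (range m ×ˢ range m).biUnion (fun p =>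
    ((ρ p).natAbs.primeFactors.filter (fun q => m < q ∧ QQ < q)).biUnion (fun q =>
      ((range (m ^ 2)).filter (fun z : ℕ => (q : ℤ) ∣
        fI (4 + MM * (p.1 : ℤ)) (-1 + MM * (p.2 : ℤ)) ((5 + MM * (z : ℤ)) ^ 2))).image
        (fun z => (p.1, p.2, z)))) := ⟨_, rfl⟩
  have hρ2 : ∀ p ∈ range m ×ˢ range m, ρ p ≠ 0 ∧ |ρ p| ≤ (c : ℤ) * (m : ℤ) ^ 1000 := by
    intro p hp
    rw [mem_product] at hp
    have h0 : ((p.1, p.2, 0) : ℕ × ℕ × ℕ) ∈ Box m := by
      unfold Box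
      rw [mem_product, mem_product]
      exact ⟨hp.1, hp.2, mem_range.2 (by
        have : 0 < m := by omega
        positivity)⟩
    rw [hρ]
    exact hN m (by omega) (p.1, p.2, 0) h0
  have hsub : (Box m).filter (fun T => ∃ q : ℕ, q.Prime ∧ m < q ∧ QQ < q ∧ (q : ℤ) ∣ cA (ww T) ∧
    (q : ℤ) ∣ cB (ww T)) ⊆ U := by
    intro T hT
    rw [mem_filter] at hT
    obtain ⟨hT1, q, hqp, hqm, hqQ, hqA, hqB⟩ := hT
    unfold Box at hT1
    rw [mem_product, mem_product] at hT1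
    have hfI : (q : ℤ) ∣ fI (ww T).1 (ww T).2.1 ((ww T).2.2 ^ 2) := by
      have := (hR (ww T) (hcong T)).1
      have e : fI (ww T).1 (ww T).2.1 ((ww T).2.2 ^ 2) = -(48 * cA (ww T)) := by linarith
      rw [e]
      exact (Dvd.dvd.mul_left hqA _).neg_right
    have hfJ : (q : ℤ) ∣ fJ (ww T).1 (ww T).2.1 ((ww T).2.2 ^ 2) := by
      have := (hR (ww T) (hcong T)).2.1
      have e : fJ (ww T).1 (ww T).2.1 ((ww T).2.2 ^ 2) = -(1728 * cB (ww T)) := by linarith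
      rw [e]
      exact (Dvd.dvd.mul_left hqB _).neg_right
    have hpp : (T.1, T.2.1) ∈ range m ×ˢ range m := mem_product.2 ⟨hT1.1, hT1.2.1⟩
    rw [hU]
    refine mem_biUnion.2 ⟨(T.1, T.2.1), hpp, mem_biUnion.2 ⟨q, mem_filter.2 ⟨?_, hqm, hqQ⟩, ?_⟩⟩
    · rw [Nat.mem_primeFactors]
      refine ⟨hqp, ?_, Int.natAbs_ne_zero.2 (hρ2 _ hpp).1⟩
      refine Int.natCast_dvd.1 ?_
      rw [hρ]
      exact hRes _ _ (deg_pI _ _) (deg_pJ _ _) q ((ww T).2.2 ^ 2)
        (by rw [eval_pI]; exact hfI) (by rw [eval_pJ]; exact hfJ)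
    · exact mem_image.2 ⟨T.2.2, mem_filter.2 ⟨hT1.2.2, hfI⟩, rfl⟩
  refine (card_le_card hsub).trans ?_
  rw [hU]
  refine card_biUnion_le.trans ?_
  have e1 : ∀ p ∈ range m ×ˢ range m,
      (((ρ p).natAbs.primeFactors.filter (fun q => m < q ∧ QQ < q)).biUnion (fun q =>
      ((range (m ^ 2)).filter (fun z : ℕ => (q : ℤ) ∣
        fI (4 + MM * (p.1 : ℤ)) (-1 + MM * (p.2 : ℤ)) ((5 + MM * (z : ℤ)) ^ 2))).image
        (fun z => (p.1, p.2, z)))).card ≤ (1000 + c) * (12 * m) := by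
    intro p hp
    refine card_biUnion_le.trans ?_
    have e2 : ∀ q ∈ (ρ p).natAbs.primeFactors.filter (fun q => m < q ∧ QQ < q),
        (((range (m ^ 2)).filter (fun z : ℕ => (q : ℤ) ∣
        fI (4 + MM * (p.1 : ℤ)) (-1 + MM * (p.2 : ℤ)) ((5 + MM * (z : ℤ)) ^ 2))).image
        (fun z => (p.1, p.2, z))).card ≤ 12 * m := by
      intro q hq
      rw [mem_filter, Nat.mem_primeFactors] at hq
      obtain ⟨⟨hqp, -, -⟩, hqm, hqQ⟩ := hq
      refine card_image_le.trans ?_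
      obtain ⟨W, hW1, hW2, hW3⟩ := polyz (4 + MM * (p.1 : ℤ)) (-1 + MM * (p.2 : ℤ))
      have hnd : ¬ (q : ℤ) ∣ W.coeff 6 := by
        rw [hW2]
        intro h
        have hP := Nat.prime_iff_prime_int.1 hqp
        rcases hP.dvd_or_dvd h with h1 | h1
        · exact nd_small q hqQ 48 (by norm_num) (by norm_num) h1
        · exact nd_MM q hqp hqQ (hP.dvd_of_dvd_pow h1)
      have e3 := Pool.Helper34.R9.st_ROOT W 6 q (m ^ 2) hqp hW1 hnd
        ((range (m ^ 2)).filter (fun z : ℕ => (q : ℤ) ∣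
        fI (4 + MM * (p.1 : ℤ)) (-1 + MM * (p.2 : ℤ)) ((5 + MM * (z : ℤ)) ^ 2))) (by
          intro z hz
          rw [mem_filter, mem_range] at hz
          refine ⟨hz.1, ?_⟩
          rw [hW3]
          exact hz.2)
      refine e3.trans ?_
      have e4 : m ^ 2 / q ≤ m ^ 2 / m := Nat.div_le_div_left hqm.le (by omega)
      have e5 : m ^ 2 / m = m := by
        rw [pow_succ, pow_one]
        exact Nat.mul_div_cancel _ (by omega)
      omega
    refine (sum_le_sum e2).trans ?_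
    rw [sum_const, smul_eq_mul]
    refine Nat.mul_le_mul_right _ ?_
    have e7 := big_primes m 1000 c (ρ p) (hρ2 p hp).1 hm (hρ2 p hp).2
    refine (card_le_card ?_).trans e7
    intro q hq
    rw [mem_filter] at hq
    exact mem_filter.2 ⟨hq.1, hq.2.1⟩
  refine (sum_le_sum e1).trans ?_
  rw [sum_const, card_product, card_range, smul_eq_mul]
  refine le_of_eq ?_
  ring

end Pool.Helper70.RT
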